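import Mathlib
import Pool.Agent.W295.NL.Stm

set_option autoImplicit false

namespace Pool.Agent.W858.NL.PR

open Pool.Agent.W295.NL

theorem central_iter {Q : Type} {L : Q → Q → Q} {z : Q → Q} (hz : Central L z) (k : ℕ) :
    Central L (z^[k]) := by
  induction k with
  | zero => intro u v; exact ⟨rfl, rfl⟩
  | succ k ih =>
    intro u v
    rw [Function.iterate_succ']
    simp only [Function.comp]
    refine ⟨?_, ?_⟩
    · rw [(hz _ _).1, (ih u v).1]
    · rw [(hz _ _).2, (ih u v).2]

theorem main : S_PR := by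
  intro Q _ L hL Q' L' φ hL' hφ z hz hzid ⟨x0, hx0⟩
  have ha : ∀ y, φ (z y) = φ y := by
    intro y
    obtain ⟨v, hv⟩ := (hL.1 x0).2 y
    rw [← hv, ← (hz x0 v).1, hφ, hx0, ← hφ]
  have hinj : Function.Injective z := by
    intro a b hab
    obtain ⟨v1, hv1⟩ := (hL.1 x0).2 a
    obtain ⟨v2, hv2⟩ := (hL.1 x0).2 b
    rw [← hv1, ← hv2, ← (hz x0 v1).1, ← (hz x0 v2).1] at hab
    have := (hL.1 (z x0)).1 hab
    rw [← hv1, ← hv2, this]
  have hbij : Function.Bijective z := Finite.injective_iff_bijective.mp hinj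
  set σ : Equiv.Perm Q := Equiv.ofBijective z hbij with hσ
  have hσz : (⇑σ) = z := rfl
  have hpow : ∀ k : ℕ, ⇑(σ ^ k) = z^[k] := by
    intro k
    rw [← Equiv.Perm.iterate_eq_pow]
    rfl
  have hN0 : 0 < orderOf σ := orderOf_pos σ
  have hN1 : orderOf σ ≠ 1 := by
    intro h
    rw [orderOf_eq_one_iff] at h
    apply hzid
    rw [← hσz, h]
    rfl
  obtain ⟨p, hp, hpd⟩ := Nat.exists_prime_and_dvd hN1
  obtain ⟨m, hm⟩ := hpd
  have hm0 : 0 < m := by
    rcases Nat.eq_zero_or_pos m with h | h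
    · rw [h, Nat.mul_zero] at hm; omega
    · exact h
  refine ⟨p, z^[m], hp, central_iter hz m, ?_, ?_, ?_⟩
  · intro h
    have h1 : σ ^ m = 1 := by
      apply Equiv.ext
      intro x
      rw [hpow m, h]
      rfl
    have h2 := orderOf_dvd_of_pow_eq_one h1
    have h3 := Nat.le_of_dvd hm0 h2
    have h4 := hp.two_le
    nlinarith
  · rw [← Function.iterate_mul]
    rw [show m * p = orderOf σ by rw [hm, Nat.mul_comm], ← hpow, pow_orderOf_eq_one]
    rfl
  · intro x
    have key : ∀ k : ℕ, φ (z^[k] x) = φ x := by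
      intro k
      induction k with
      | zero => rfl
      | succ k ih => rw [Function.iterate_succ_apply', ha, ih]
    exact key m

end Pool.Agent.W858.NL.PR
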